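import Mathlib
import Pool.Agent.H590.NL.Stm

/-! # Monotonicity of the logarithmic derivative of the marginal -/

set_option autoImplicit false

noncomputable section

open MeasureTheory Filter Topology Set

namespace H763NLMN

open H590NL

/-- one variable form -/
theorem mono_of {p : ℝ} {Z Z1 Z2 J : ℝ → ℝ} (hp : 1 < p) (hZ : ∀ s, 0 < Z s)
    (d1 : ∀ s, HasDerivAt Z (Z1 s) s) (d2 : ∀ s, HasDerivAt Z1 (Z2 s) s)
    (hBL : ∀ s, Z2 s * Z s - Z1 s ^ 2 ≤ -(2 * (p - 1) * Z s * J s))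
    (hMX : ∀ s, 0 < s → -(Z1 s) / (2 * s) ≤ J s) :
    MonotoneOn (fun s => -(Z1 s) / Z s * s ^ (1 - p)) (Ioi 0) := by
  have hd : ∀ s : ℝ, 0 < s → HasDerivAt (fun s => -(Z1 s) / Z s * s ^ (1 - p))
      ((-(Z2 s) * Z s - -(Z1 s) * Z1 s) / Z s ^ 2 * s ^ (1 - p) +
        -(Z1 s) / Z s * ((1 - p) * s ^ (1 - p - 1))) s := by
    intro s hs
    exact ((d2 s).neg.div (d1 s) (hZ s).ne').mul (Real.hasDerivAt_rpow_const (Or.inl hs.ne'))
  refine monotoneOn_of_deriv_nonneg (convex_Ioi 0) ?_ ?_ ?_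
  · intro s hs
    exact (hd s hs).continuousAt.continuousWithinAt
  · rw [interior_Ioi]
    intro s hs
    exact (hd s hs).differentiableAt.differentiableWithinAt
  · rw [interior_Ioi]
    intro s hs
    have hs0 : 0 < s := hs
    rw [(hd s hs0).deriv]
    have hz := hZ s
    have e1 : s ^ (1 - p - 1) = s ^ (1 - p) / s := Real.rpow_sub_one hs0.ne' _
    rw [e1]
    have hr : 0 < s ^ (1 - p) := Real.rpow_pos_of_pos hs0 _
    have e2 : (-(Z2 s) * Z s - -(Z1 s) * Z1 s) / Z s ^ 2 * s ^ (1 - p) +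
        -(Z1 s) / Z s * ((1 - p) * (s ^ (1 - p) / s)) =
        s ^ (1 - p) / Z s ^ 2 * (-(Z2 s * Z s - Z1 s ^ 2) + (p - 1) * Z s * (Z1 s / s)) := by
      field_simp
      ring
    rw [e2]
    refine mul_nonneg (by positivity) ?_
    have h1 := hBL s
    have h2 := hMX s hs0
    have h3 : 2 * (p - 1) * Z s * (-(Z1 s) / (2 * s)) ≤ 2 * (p - 1) * Z s * J s :=
      mul_le_mul_of_nonneg_left h2 (by have := sub_pos.2 hp; positivity)
    have e3 : 2 * (p - 1) * Z s * (-(Z1 s) / (2 * s)) = -((p - 1) * Z s * (Z1 s / s)) := by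
      field_simp
    rw [e3] at h3
    linarith

theorem MN (h1 : S_BL) (h2 : S_MX) (h3 : S_ZD) : S_MN := by
  intro m κ _ p b C ψ ω ψ2 ν hp1 hp2 hK v hv
  obtain ⟨-, hpos, hd1, ⟨Z2, hd2⟩, -⟩ := h3 m κ p b C ψ ω ψ2 ν hp1 hp2 hK v hv
  exact mono_of (J := KJ ψ ω v) hp1 (fun s => (hpos s).1) hd1 hd2
    (fun s => h1 m κ p b C ψ ω ψ2 ν hp1 hp2 hK v hv s (Z2 s) (hd2 s))
    (fun s hs => h2 m κ p b C ψ ω ψ2 ν hp1 hp2 hK v hv s hs)

end H763NLMN

end
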